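import Pool.Agent.Q275.GQ.Stm2

/-! Job LIM of project GQ: upper bounds for all words give the limits. -/

set_option autoImplicit false

namespace Pool.Agent.Q113.GQ

open Finset Filter Topology Pool.Agent.Q275.GQ
open scoped Classical

/-- The number of the occurrences of a word. -/
noncomputable def cnt (c : ℕ → ℕ) (l N : ℕ) (w : ℕ → ℕ) : ℕ :=
  ((range N).filter (fun t => ∀ i < l, c (t + i) = w i)).card

/-- The extension of a word. -/
def wd {q l : ℕ} (w : Fin l → Fin q) (i : ℕ) : ℕ := if h : i < l then w ⟨i, h⟩ else 0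

theorem wd_lt {q l : ℕ} (w : Fin l → Fin q) {i : ℕ} (hi : i < l) : wd w i < q := by
  unfold wd
  rw [dif_pos hi]
  exact (w ⟨i, hi⟩).2

theorem sum_cnt {q : ℕ} (c : ℕ → ℕ) (hc : ∀ n, c n < q) (l N : ℕ) :
    ∑ w : Fin l → Fin q, cnt c l N (wd w) = N := by
  have h := Finset.card_eq_sum_card_fiberwise (s := range N) (t := (univ : Finset (Fin l → Fin q)))
    (f := fun (t : ℕ) (i : Fin l) => (⟨c (t + i), hc _⟩ : Fin q)) (fun _ _ => Finset.mem_coe.2 (mem_univ _))
  rw [card_range] at h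
  refine Eq.trans (Finset.sum_congr rfl fun w _ => ?_) h.symm
  unfold cnt
  congr 1
  ext t
  simp only [mem_filter]
  refine and_congr_right fun _ => ?_
  constructor
  · intro h
    funext i
    apply Fin.ext
    have := h i i.2
    unfold wd at this
    rw [dif_pos i.2] at this
    exact this
  · intro h i hi
    unfold wd
    rw [dif_pos hi, ← h]

theorem lim : S_LIM := by
  intro q hq c hc l hup w hw
  have hQ : (0 : ℝ) < (q : ℝ) ^ l := pow_pos (by exact_mod_cast hq) l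
  have hQ1 : (1 : ℝ) ≤ (q : ℝ) ^ l := one_le_pow₀ (by exact_mod_cast hq)
  change Tendsto (fun N : ℕ => (cnt c l N w : ℝ) / N) atTop (𝓝 (1 / (q : ℝ) ^ l))
  rw [Metric.tendsto_atTop]
  intro ε hε
  set δ : ℝ := ε / 2 / (q : ℝ) ^ l with hδ
  have hδ0 : 0 < δ := by positivity
  have h1 : ∀ v : Fin l → Fin q, ∃ N₀ : ℕ, ∀ N : ℕ, N₀ ≤ N →
      (cnt c l N (wd v) : ℝ) ≤ (1 / (q : ℝ) ^ l + δ) * N :=
    fun v => hup (wd v) (fun i hi => wd_lt v hi) δ hδ0
  choose N₀ hN₀ using h1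
  let w₀ : Fin l → Fin q := fun i => ⟨w i, hw i i.2⟩
  have hcw : ∀ N, cnt c l N w = cnt c l N (wd w₀) := by
    intro N
    unfold cnt
    congr 1
    ext t
    simp only [mem_filter]
    refine and_congr_right fun _ => ?_
    refine forall₂_congr fun i hi => ?_
    have : wd w₀ i = w i := by
      unfold wd
      rw [dif_pos hi]
    rw [this]
  refine ⟨(∑ v, N₀ v) + 1, fun N hN => ?_⟩
  have hNv : ∀ v, N₀ v ≤ N := fun v =>
    (Finset.single_le_sum (f := N₀) (fun _ _ => Nat.zero_le _) (mem_univ v)).trans (by omega)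
  have hN1 : (0 : ℝ) < N := by
    have : 0 < N := by omega
    exact_mod_cast this
  have hsum : (∑ v : Fin l → Fin q, (cnt c l N (wd v) : ℝ)) = N := by
    have := sum_cnt c hc l N
    exact_mod_cast congrArg (fun n : ℕ => (n : ℝ)) this
  have hsplit := Finset.add_sum_erase univ (fun v : Fin l → Fin q => (cnt c l N (wd v) : ℝ))
    (mem_univ w₀)
  have herase : ∑ v ∈ univ.erase w₀, (cnt c l N (wd v) : ℝ) ≤
      ((q : ℝ) ^ l - 1) * ((1 / (q : ℝ) ^ l + δ) * N) := by
    have e1 := Finset.sum_le_card_nsmul (univ.erase w₀) (fun v : Fin l → Fin q =>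
      (cnt c l N (wd v) : ℝ)) ((1 / (q : ℝ) ^ l + δ) * N) (fun v _ => hN₀ v N (hNv v))
    rw [card_erase_of_mem (mem_univ _), card_univ, Fintype.card_fun, Fintype.card_fin,
      Fintype.card_fin, nsmul_eq_mul, Nat.cast_sub (Nat.one_le_pow _ _ hq)] at e1
    push_cast at e1
    exact e1
  have hupw := hN₀ w₀ N (hNv w₀)
  rw [Real.dist_eq, hcw, abs_lt]
  have hδe : (q : ℝ) ^ l * δ = ε / 2 := by
    rw [hδ]; field_simp
  have hinv : (q : ℝ) ^ l * (1 / (q : ℝ) ^ l) = 1 := by field_simp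
  have hδle : δ ≤ ε / 2 := by
    rw [hδ]; exact div_le_self (by positivity) hQ1
  constructor
  · have h2 : (1 / (q : ℝ) ^ l - ε / 2) * N ≤ cnt c l N (wd w₀) := by
      have h3 : (cnt c l N (wd w₀) : ℝ) = N - ∑ v ∈ univ.erase w₀, (cnt c l N (wd v) : ℝ) := by
        rw [← hsum] ; linarith
      rw [h3]
      have h4 : ((q : ℝ) ^ l - 1) * ((1 / (q : ℝ) ^ l + δ) * N) =
          ((q : ℝ) ^ l * (1 / (q : ℝ) ^ l) + (q : ℝ) ^ l * δ - 1 / (q : ℝ) ^ l - δ) * N := by ring
      rw [h4, hinv, hδe] at herase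
      have h5 : 0 ≤ δ * N := by positivity
      nlinarith
    have h6 : 1 / (q : ℝ) ^ l - ε / 2 ≤ (cnt c l N (wd w₀) : ℝ) / N := by
      rw [le_div_iff₀ hN1]; exact h2
    linarith
  · have h6 : (cnt c l N (wd w₀) : ℝ) / N ≤ 1 / (q : ℝ) ^ l + δ := by
      rw [div_le_iff₀ hN1]; exact hupw
    linarith

end Pool.Agent.Q113.GQ
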